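import Pool.Agent.CSV.TreeLim

set_option autoImplicit false

/-!
# Tree-like sentences of continuous logic converge in the symmetric groups

The formulas are given by `Pool.Agent.CSV.TreeLike` (`Pool/Agent/CSV/TreeDefs.lean`).  A formula
with free variables `x 0, ..., x (k - 1)` is given by its values `φ n x`, `x : Fin k → S_n`, where
`S_n` carries the normalised Hamming length; `p i` is the parent of the variable `x i`, words are
only allowed in a variable and its parent, and any number of variables may be quantified, in any
order of `sup` and `inf`.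
-/

open Filter Topology

namespace Pool.Agent.Results.MP_34c6af_lc.TreeLikeSentences

/-- **Tree-like sentences.** The values of every tree-like sentence in the symmetric groups `S_n`
converge as `n → ∞`.  More generally, for every tree-like formula `φ` there is a function `F`,
continuous for the product topology, of the lengths of the words in a variable and its parent, such
that `φ n x` differs from the value of `F` at `x` by at most `ε`, for all `x` and all large `n`. -/
theorem result :
    (∀ (p : Fin 0 → Fin 0) (φ : (n : ℕ) → (Fin 0 → Equiv.Perm (Fin n)) → ℝ),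
      Pool.Agent.CSV.TreeLike 0 p φ →
      ∃ L : ℝ, Tendsto (fun n : ℕ => φ n Fin.elim0) atTop (𝓝 L)) ∧
    ∀ (k : ℕ) (p : Fin k → Fin k) (φ : (n : ℕ) → (Fin k → Equiv.Perm (Fin n)) → ℝ),
      Pool.Agent.CSV.TreeLike k p φ →
      ∃ F : (Fin k × FreeGroup (Fin 2) → ℝ) → ℝ, Continuous F ∧
        ∀ ε : ℝ, 0 < ε → ∃ N : ℕ, ∀ n, N ≤ n → ∀ x : Fin k → Equiv.Perm (Fin n),
          |φ n x - F (fun a => (((FreeGroup.lift ![x a.1, x (p a.1)]) a.2).support.card : ℝ) /
            (n : ℝ))| ≤ ε :=
  ⟨fun p φ hφ => Pool.Agent.CSV.tree_sentence p φ hφ,
    fun _ p φ hφ => Pool.Agent.CSV.tree_final p φ hφ⟩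

end Pool.Agent.Results.MP_34c6af_lc.TreeLikeSentences
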