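import Pool.Agent.CSV.Lim

set_option autoImplicit false

/-!
# Two-variable sentences of continuous logic converge in the symmetric groups

The formulas are given by `Pool.Agent.CSV.TwoVar` (`Pool/Agent/CSV/FinDefs.lean`): the two-variable
fragment of continuous logic for invariant length groups, read in all the symmetric groups `S_n`
with normalised Hamming length.  A formula in the variables `x 0`, `x 1` is given by its values
`φ n x`, `x : Fin 2 → S_n`; both variables may be quantified any number of times.
-/

open Filter Topology

namespace Pool.Agent.Results.MP_34c6af_lc.TwoVariable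

/-- **Two variables.** For every formula `φ` of the two-variable fragment there is a function `F`
of the word lengths, continuous for the product topology, such that `φ n x` differs from `F` at the
word lengths of `x` by at most `ε`, for all `x` in `S_n × S_n` and all large `n`; in particular the
value at `(1, 1)`, which for a sentence is its value, converges to `F 0` as `n → ∞`. -/
theorem result (φ : (n : ℕ) → (Fin 2 → Equiv.Perm (Fin n)) → ℝ) (hφ : Pool.Agent.CSV.TwoVar φ) :
    ∃ F : (FreeGroup (Fin 2) → ℝ) → ℝ, Continuous F ∧
      Tendsto (fun n : ℕ => φ n (fun _ => 1)) atTop (𝓝 (F (fun _ => 0))) ∧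
      ∀ ε : ℝ, 0 < ε → ∃ N : ℕ, ∀ n, N ≤ n → ∀ x : Fin 2 → Equiv.Perm (Fin n),
        |φ n x - F (fun w => (((FreeGroup.lift x) w).support.card : ℝ) / (n : ℝ))| ≤ ε :=
  Pool.Agent.CSV.final φ hφ

end Pool.Agent.Results.MP_34c6af_lc.TwoVariable
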